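import Pool.Agent.Lib.MP_678664_lc_FG.Sep
import Pool.Agent.Lib.MP_678664_lc_FN.Approx

/-! Approximation of the monotone functions of a circuit by closed families. -/

open Finset FewNeg FewNeg.ApproxAux

namespace FewGates

variable {E Z : Type} [Fintype E] [DecidableEq E] [Fintype Z] [Nonempty Z]

/-- The approximators of the first `n` gates. -/
theorem approximators {ι : Type} {Q R c ρ : ℕ} (hQ : 0 < Q) (hc : 1 ≤ c)
    (hρ : 8 * (1 + 2 * c) ≤ ρ) {Y : Z → Set E} (hY : Spread Y (Q * ρ) (2 * c))
    {a : Set E → ι → Prop} (ha : IsLit a) (C : Circuit ι) (β : ℕ → Prop) (n : ℕ) :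
    ∃ (A : ℕ → Finset (Finset E)) (bp : Z → Prop) (bn : Set E → Prop),
      avg (fun z => ind (bp z)) ≤ n * (2 * (2 * c / ρ : ℝ) ^ (c + 1)) ∧
      (T Q)^[R] (fun S => ind (bn S)) ∅
        ≤ n * (((Fintype.card E : ℝ) + 1) ^ (2 * c) * (3 / 4) ^ R) ∧
      ∀ i < n, Closed Q R c (A i) ∧
        (∀ z, ¬ bp z → C.mval β (a (Y z)) i → Hits (A i) (Y z)) ∧
        (∀ S, ¬ bn S → Hits (A i) S → C.mval β (a S) i) := by
  classical
  induction n with
  | zero =>
    refine ⟨fun _ => ∅, fun _ => False, fun _ => False, ?_, ?_, ?_⟩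
    · have : (fun _ : Z => ind False) = fun _ => 0 := by
        funext z; exact ind_false (fun h => h)
      rw [this, avg_const]; simp
    · have : (fun _ : Set E => ind False) = fun _ => 0 := by
        funext z; exact ind_false (fun h => h)
      rw [this, T_iter_const hQ]; simp
    · intro i hi
      omega
  | succ n ih =>
    obtain ⟨A, bp, bn, hbp, hbn, hA⟩ := ih
    -- a family for gate `n`
    have hgate : ∃ D : Finset (Finset E), (∀ x ∈ D, x.card ≤ 2 * c) ∧
        (∀ z, ¬ bp z → C.mval β (a (Y z)) n → Hits D (Y z)) ∧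
        (∀ S, ¬ bn S → Hits D S → C.mval β (a S) n) := by
      cases hC : C n with
      | input v =>
        have hval : ∀ S, C.mval β (a S) n ↔ a S v := by
          intro S; rw [Circuit.mval.eq_def, hC]
        rcases ha v with h | h | ⟨e, he⟩
        · refine ⟨{∅}, by simp, fun z _ _ => hits_top _, fun S _ _ => ?_⟩
          rw [hval]; exact h S
        · refine ⟨∅, by simp, fun z _ hv => ?_, fun S _ hh => absurd hh (not_hits_bot S)⟩
          rw [hval] at hv
          exact absurd hv (h _)
        · refine ⟨{{e}}, ?_, fun z _ hv => ?_, fun S _ hh => ?_⟩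
          · intro x hx
            rw [Finset.mem_singleton] at hx
            rw [hx, Finset.card_singleton]; omega
          · rw [hval, he] at hv
            exact (hits_single e _).2 hv
          · rw [hval, he]
            exact (hits_single e _).1 hh
      | const b =>
        have hval : ∀ S, C.mval β (a S) n ↔ (b = true) := by
          intro S; rw [Circuit.mval.eq_def, hC]
        obtain ⟨D, hD0, hD⟩ := exists_const (E := E) (b = true)
        exact ⟨D, fun x hx => by rw [hD0 x hx]; omega,
          fun z _ hv => (hD _).2 ((hval _).1 hv), fun S _ hh => (hval _).2 ((hD _).1 hh)⟩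
      | and p q =>
        have hval : ∀ S, C.mval β (a S) n ↔ C.mval β (a S) p ∧ C.mval β (a S) q := by
          intro S; rw [Circuit.mval.eq_def, hC]
        obtain ⟨hp1, hp2, hp3⟩ := hA p p.isLt
        obtain ⟨hq1, hq2, hq3⟩ := hA q q.isLt
        refine ⟨Finset.image₂ (· ∪ ·) (A p) (A q), ?_, fun z hz hv => ?_, fun S hS hh => ?_⟩
        · intro x hx
          rw [Finset.mem_image₂] at hx
          obtain ⟨y, hy, w, hw, rfl⟩ := hx
          have h1 := hp1.1 y hy
          have h2 := hq1.1 w hw
          have h3 := Finset.card_union_le y w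
          omega
        · rw [hval] at hv
          exact (hits_image2 _ _ _).2 ⟨hp2 z hz hv.1, hq2 z hz hv.2⟩
        · rw [hval]
          have := (hits_image2 _ _ _).1 hh
          exact ⟨hp3 S hS this.1, hq3 S hS this.2⟩
      | or p q =>
        have hval : ∀ S, C.mval β (a S) n ↔ C.mval β (a S) p ∨ C.mval β (a S) q := by
          intro S; rw [Circuit.mval.eq_def, hC]
        obtain ⟨hp1, hp2, hp3⟩ := hA p p.isLt
        obtain ⟨hq1, hq2, hq3⟩ := hA q q.isLt
        refine ⟨A p ∪ A q, ?_, fun z hz hv => ?_, fun S hS hh => ?_⟩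
        · intro x hx
          rcases Finset.mem_union.1 hx with h | h
          · have := hp1.1 x h; omega
          · have := hq1.1 x h; omega
        · rw [hval] at hv
          exact (hits_union _ _ _).2 (hv.imp (hp2 z hz) (hq2 z hz))
        · rw [hval]
          exact ((hits_union _ _ _).1 hh).imp (hp3 S hS) (hq3 S hS)
      | other r w g =>
        have hval : ∀ S, C.mval β (a S) n ↔ β n := by
          intro S; rw [Circuit.mval.eq_def, hC]
        obtain ⟨D, hD0, hD⟩ := exists_const (E := E) (β n)
        exact ⟨D, fun x hx => by rw [hD0 x hx]; omega,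
          fun z _ hv => (hD _).2 ((hval _).1 hv), fun S _ hh => (hval _).2 ((hD _).1 hh)⟩
    obtain ⟨D, hD1, hD2, hD3⟩ := hgate
    obtain ⟨B, hB, hBp, hBn⟩ := exists_trunc (R := R) hQ hc hρ hY D hD1
    refine ⟨Function.update A n B, fun z => bp z ∨ (Hits D (Y z) ∧ ¬ Hits B (Y z)),
      fun S => bn S ∨ (Hits B S ∧ ¬ Hits D S), ?_, ?_, ?_⟩
    · refine (avg_mono fun z => ind_or_le _ _).trans ?_
      rw [avg_add]
      push_cast
      linarith
    · refine (T_iter_mono' (fun S => ind_or_le _ _) R ∅).trans ?_
      rw [T_iter_add]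
      push_cast
      linarith
    · intro i hi
      rcases Nat.lt_succ_iff_lt_or_eq.1 hi with h | h
      · rw [Function.update_of_ne (by omega)]
        obtain ⟨h1, h2, h3⟩ := hA i h
        exact ⟨h1, fun z hz hv => h2 z (fun hh => hz (Or.inl hh)) hv,
          fun S hS hv => h3 S (fun hh => hS (Or.inl hh)) hv⟩
      · subst h
        rw [Function.update_self]
        refine ⟨hB, fun z hz hv => ?_, fun S hS hv => ?_⟩
        · by_contra hn
          exact hz (Or.inr ⟨hD2 z (fun hh => hz (Or.inl hh)) hv, hn⟩)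
        · apply hD3 S (fun hh => hS (Or.inl hh))
          by_contra hn
          exact hS (Or.inr ⟨hv, hn⟩)

/-- Small monotone circuits cannot see the planted set. -/
theorem mono_bound {ι : Type}
    {Q R c ρ : ℕ} (hQ : 0 < Q) (hR : 0 < R) (hc : 1 ≤ c) (hρ : 8 * (1 + 2 * c) ≤ ρ)
    {Y : Z → Set E} (hY : Spread Y (Q * ρ) (2 * c))
    {a : Set E → ι → Prop} (ha : IsLit a) (C : Circuit ι) (β : ℕ → Prop) {i s : ℕ}
    (his : i < s) (G : Set E) :
    avg (fun z => ind (C.mval β (a (G ∪ Y z)) i))
      ≤ (T Q)^[R] (fun S => ind (C.mval β (a S) i)) G + s * err (Fintype.card E) R c ρ := by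
  classical
  have ha' : IsLit (fun S => a (G ∪ S)) := by
    intro v
    rcases ha v with h | h | ⟨e, he⟩
    · exact Or.inl fun x => h _
    · exact Or.inr (Or.inl fun x => h _)
    · by_cases heG : e ∈ G
      · exact Or.inl fun x => (he _).2 (Or.inl heG)
      · refine Or.inr (Or.inr ⟨e, fun x => ?_⟩)
        change a (G ∪ x) v ↔ e ∈ x
        rw [he]
        constructor
        · rintro (h | h)
          · exact absurd h heG
          · exact h
        · exact fun h => Or.inr h
  obtain ⟨A, bp, bn, hbp, hbn, hA⟩ := approximators (R := R) hQ hc hρ hY ha' C β s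
  obtain ⟨h1, h2, h3⟩ := hA i his
  have hYc : Spread Y (Q * ρ) c := fun x hx => hY x (by omega)
  have hcmp := closed_compare (lam := 2 * c) hQ hR (by omega) (by omega) hρ hYc h1
  have hstep1 : avg (fun z => ind (C.mval β (a (G ∪ Y z)) i))
      ≤ avg (fun z => ind (Hits (A i) (Y z))) + avg (fun z => ind (bp z)) := by
    rw [← avg_add]
    apply avg_mono
    intro z
    refine le_trans (ind_mono ?_) (ind_or_le _ _)
    intro hv
    by_cases hb : bp z
    · exact Or.inr hb
    · exact Or.inl (h2 z hb hv)
  have hstep2 : (T Q)^[R] (fun S => ind (Hits (A i) S)) ∅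
      ≤ (T Q)^[R] (fun S => ind (C.mval β (a (G ∪ S)) i)) ∅ + (T Q)^[R] (fun S => ind (bn S)) ∅ := by
    have hpt : ∀ S : Set E, ind (Hits (A i) S)
        ≤ ind (C.mval β (a (G ∪ S)) i) + ind (bn S) := by
      intro S
      refine le_trans (ind_mono ?_) (ind_or_le _ _)
      intro hv
      by_cases hb : bn S
      · exact Or.inr hb
      · exact Or.inl (h3 S hb hv)
    have := T_iter_mono' (Q := Q) hpt R ∅
    rw [T_iter_add] at this
    exact this
  have hshift : (T Q)^[R] (fun S => ind (C.mval β (a (G ∪ S)) i)) ∅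
      = (T Q)^[R] (fun S => ind (C.mval β (a S) i)) G := by
    have := T_iter_shift Q (fun S => ind (C.mval β (a S) i)) G R ∅
    rw [Set.union_empty] at this
    exact this
  rw [hshift] at hstep2
  unfold err
  rw [mul_add]
  linarith

end FewGates
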