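import Pool.Agent.Lib.MP_678664_lc_FN.Graph
import Pool.Agent.Lib.MP_678664_lc_FN.Csp

/-! Large cliques give assignments satisfying many constraints, and few random layers satisfy
only few constraints. -/

open Finset FewNeg FewNeg.GraphAux

namespace FewGates

variable {q d u e : ℕ}

/-- The assignment `w` satisfies `τ` positions. -/
def Sat {q D u : ℕ} (φ : Fin (q + 1) → Fin D → Fin q) (τ : ℕ) (x : Set (El q D u)) : Prop :=
  ∃ w : Fin q → Fin u, ∃ J : Finset (Fin (q + 1)), J.card = τ ∧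
    ∀ j ∈ J, ((j, w ∘ φ j) : El q D u) ∈ x

/-- Classes of the first kind and of the second kind. -/
theorem sat_of_clique {φ : Fin (q + 1) → Fin (2 * d) → Fin q} {x : Set (El q (2 * d) u)}
    (hu : 0 < u) {τ : ℕ} (h : ¬ (Gr (e := e) φ x).CliqueFree (q + 1 + τ + e)) :
    Sat φ τ x := by
  classical
  unfold SimpleGraph.CliqueFree at h
  push Not at h
  obtain ⟨K, hK, hcard⟩ := h
  have hadj : ∀ a ∈ K, ∀ b ∈ K, a ≠ b → (Gr (e := e) φ x).Adj a b :=
    fun a ha b hb hab => hK (mem_coe.2 ha) (mem_coe.2 hb) hab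
  have hinj : Set.InjOn (cls (q := q) (d := d) (u := u) (e := e)) K := by
    intro a ha b hb hab
    by_contra hne
    exact cls_ne (hadj a ha b hb hne) hab
  -- the classes which occur
  obtain ⟨I, hI⟩ : ∃ I : Finset (Fin (q + 1) × Bool),
      I = univ.filter fun c => ∃ v : Fin d → Fin u, (Sum.inl (c.1, c.2, v) : Vert q d u e) ∈ K :=
    ⟨_, rfl⟩
  have hmemI : ∀ c, c ∈ I ↔ ∃ v : Fin d → Fin u, (Sum.inl (c.1, c.2, v) : Vert q d u e) ∈ K := by
    intro c
    simp [hI]
  have hIcard : q + 1 + τ ≤ I.card := by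
    have h1 : K.image (cls (q := q) (d := d) (u := u) (e := e)) ⊆
        I.image Sum.inl ∪ (univ : Finset (Fin e)).image Sum.inr := by
      intro c hc
      obtain ⟨a, ha, hac⟩ := mem_image.1 hc
      rw [mem_union]
      rcases a with a | i
      · left
        rw [← hac]
        exact mem_image.2 ⟨(a.1, a.2.1), (hmemI _).2 ⟨a.2.2, ha⟩, rfl⟩
      · right
        rw [← hac]
        exact mem_image.2 ⟨i, mem_univ _, rfl⟩
    have h2 := card_le_card h1
    rw [card_image_of_injOn hinj, hcard] at h2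
    have h3 := card_union_le (I.image (Sum.inl : _ → (Fin (q + 1) × Bool) ⊕ Fin e))
      ((univ : Finset (Fin e)).image Sum.inr)
    have h4 : (I.image (Sum.inl : _ → (Fin (q + 1) × Bool) ⊕ Fin e)).card ≤ I.card :=
      card_image_le
    have h5 : ((univ : Finset (Fin e)).image
        (Sum.inr : _ → (Fin (q + 1) × Bool) ⊕ Fin e)).card ≤ e := by
      refine card_image_le.trans ?_
      simp
    omega
  -- the positions both of whose halves occur
  obtain ⟨J₀, hJ₀⟩ : ∃ J₀ : Finset (Fin (q + 1)),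
      J₀ = univ.filter fun j => (j, false) ∈ I ∧ (j, true) ∈ I := ⟨_, rfl⟩
  have hJcard : τ ≤ J₀.card := by
    have h1 : I.card ≤ (q + 1) + J₀.card := by
      have h2 : I ⊆ (univ : Finset (Fin (q + 1))).image (fun j => (j, decide ((j, true) ∈ I))) ∪
          J₀.image (fun j => (j, false)) := by
        rintro ⟨j, s⟩ hc
        rw [mem_union]
        by_cases ht : (j, true) ∈ I
        · cases s with
          | true =>
            left
            exact mem_image.2 ⟨j, mem_univ _, by simp [ht]⟩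
          | false =>
            right
            refine mem_image.2 ⟨j, ?_, rfl⟩
            rw [hJ₀, mem_filter]
            exact ⟨mem_univ _, hc, ht⟩
        · cases s with
          | true => exact absurd hc ht
          | false =>
            left
            exact mem_image.2 ⟨j, mem_univ _, by simp [ht]⟩
      refine (card_le_card h2).trans ((card_union_le _ _).trans ?_)
      refine Nat.add_le_add (card_image_le.trans ?_) card_image_le
      simp
    omega
  obtain ⟨J, hJJ, hJτ⟩ := exists_subset_card_eq hJcard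
  have hex : ∀ c : Fin (q + 1) × Bool, ∃ v : Fin d → Fin u,
      c ∈ I → (Sum.inl (c.1, c.2, v) : Vert q d u e) ∈ K := by
    intro c
    by_cases hc : c ∈ I
    · obtain ⟨v, hv⟩ := (hmemI c).1 hc
      exact ⟨v, fun _ => hv⟩
    · exact ⟨fun _ => ⟨0, hu⟩, fun h => absurd h hc⟩
  choose V hV using hex
  have hpair : ∀ c ∈ I, ∀ c' ∈ I, c ≠ c' →
      Adj₀ φ x (c.1, c.2, V c) (c'.1, c'.2, V c') := by
    intro c hc c' hc' hcc
    refine hadj _ (hV c hc) _ (hV c' hc') ?_
    intro heq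
    apply hcc
    simp only [Sum.inl.injEq, Prod.mk.injEq] at heq
    exact Prod.ext heq.1 heq.2.1
  -- consistency: needs another class, or the same class twice
  have hfit : ∀ c ∈ I, (∃ c' ∈ I, c' ≠ c) → ∃ w : Fin q → Fin u, Fits φ w (c.1, c.2, V c) := by
    intro c hc hc'
    obtain ⟨c', hc', hne⟩ := hc'
    obtain ⟨-, w, hw, -, -⟩ := hpair c hc c' hc' (Ne.symm hne)
    exact ⟨w, hw⟩
  by_cases hτ0 : τ = 0
  · exact ⟨fun _ => ⟨0, hu⟩, ∅, by rw [hτ0]; rfl, by simp⟩
  have hmany : ∀ c ∈ I, ∃ c' ∈ I, c' ≠ c := by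
    intro c hc
    by_contra hno
    push Not at hno
    have : I ⊆ {c} := fun c' hc' => mem_singleton.2 (hno c' hc')
    have h1 := card_le_card this
    rw [card_singleton] at h1
    omega
  have hcons : ∀ c ∈ I, ∀ c' ∈ I, ∀ l l' : Fin d,
      φ c.1 (half c.2 l) = φ c'.1 (half c'.2 l') → V c l = V c' l' := by
    intro c hc c' hc' l l' hll
    by_cases hcc : c = c'
    · subst hcc
      obtain ⟨w, hw⟩ := hfit c hc (hmany c hc)
      have h1 := hw l
      have h2 := hw l'
      simp only at h1 h2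
      rw [h1, h2, hll]
    · obtain ⟨-, w, hw, hw', -⟩ := hpair c hc c' hc' hcc
      have h1 := hw l
      have h2 := hw' l'
      simp only at h1 h2
      rw [h1, h2, hll]
  have hw : ∃ w : Fin q → Fin u, ∀ c ∈ I, ∀ l : Fin d,
      V c l = w (φ c.1 (half c.2 l)) := by
    have : ∀ i : Fin q, ∃ z : Fin u, ∀ c ∈ I, ∀ l : Fin d,
        φ c.1 (half c.2 l) = i → V c l = z := by
      intro i
      by_cases hi : ∃ c ∈ I, ∃ l : Fin d, φ c.1 (half c.2 l) = i
      · obtain ⟨c, hc, l, hcl⟩ := hi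
        refine ⟨V c l, fun c' hc' l' h' => hcons c' hc' c hc l' l (h'.trans hcl.symm)⟩
      · push Not at hi
        exact ⟨⟨0, hu⟩, fun c hc l h' => absurd h' (hi c hc l)⟩
    choose w hw using this
    exact ⟨w, fun c hc l => hw _ c hc l rfl⟩
  obtain ⟨w, hw⟩ := hw
  refine ⟨w, J, hJτ, ?_⟩
  intro j hj
  have hj' := hJJ hj
  rw [hJ₀, mem_filter] at hj'
  obtain ⟨-, hjf, hjt⟩ := hj'
  obtain ⟨-, w', h1, h2, h3⟩ := hpair (j, false) hjf (j, true) hjt (by simp)
  have hc : w ∘ φ j = w' ∘ φ j :=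
    comp_eq (φ := φ) (w := w) (w' := w') (a := (j, false, V (j, false)))
      (b := (j, true, V (j, true))) rfl (by simp) (fun l => hw (j, false) hjf l)
      (fun l => hw (j, true) hjt l) h1 h2
  rw [hc]
  exact h3 rfl

/-- The hard function with a gap is a restriction of the clique problem with a gap. -/
theorem graph_gap {n : ℕ} (hu : 0 < u)
    (hn : 2 * (q + 1) * u ^ d + e ≤ n) (φ : Fin (q + 1) → Fin (2 * d) → Fin q) :
    ∃ Γ : Set (El q (2 * d) u) → SimpleGraph (Fin n),
      IsLit (fun x (p : Fin n × Fin n) => (Γ x).Adj p.1 p.2) ∧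
      (∀ x y, x ⊆ y → ∀ p : Fin n × Fin n, (Γ x).Adj p.1 p.2 → (Γ y).Adj p.1 p.2) ∧
      (∀ x w, Yw φ w ⊆ x → ¬ (Γ x).CliqueFree (2 * (q + 1) + e)) ∧
      ∀ x τ, ¬ Sat φ τ x → (Γ x).CliqueFree (q + 1 + τ + e) := by
  classical
  have hcard : Fintype.card (Vert q d u e) ≤ Fintype.card (Fin n) := by
    simp only [Fintype.card_sum, Fintype.card_prod, Fintype.card_fin, Fintype.card_bool,
      Fintype.card_pi, Finset.prod_const, Finset.card_univ]
    calc (q + 1) * (2 * u ^ d) + e = 2 * (q + 1) * u ^ d + e := by ring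
      _ ≤ n := hn
  obtain ⟨f⟩ := Function.Embedding.nonempty_of_card_le hcard
  have hlit := isLit_map φ f
  have : Nonempty (Vert q d u e) := ⟨Sum.inl (0, false, fun _ => ⟨0, hu⟩)⟩
  refine ⟨fun x => (Gr φ x).map f, hlit, ?_, ?_, ?_⟩
  · intro x y hxy p hp
    rcases hlit p with h | h | ⟨e, h⟩
    · exact h y
    · exact absurd hp (h x)
    · exact (h y).2 (hxy ((h x).1 hp))
  · intro x w hw
    rw [SimpleGraph.cliqueFree_map_iff]
    exact exists_clique hw
  · intro x τ hs
    rw [SimpleGraph.cliqueFree_map_iff]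
    by_contra h
    exact hs (sat_of_clique hu h)

theorem sat_bound {D Q : ℕ} (hQ : 0 < Q) (φ : Fin (q + 1) → Fin D → Fin q) (τ N : ℕ) :
    (T Q)^[N] (fun S : Set (El q D u) => ind (Sat φ τ S)) ∅
      ≤ (u : ℝ) ^ q * 2 ^ (q + 1) * ((N : ℝ) / Q) ^ τ := by
  classical
  obtain ⟨P, hP⟩ : ∃ P : Finset ((Fin q → Fin u) × Finset (Fin (q + 1))),
      P = (univ : Finset (Fin q → Fin u)) ×ˢ (univ : Finset (Fin (q + 1))).powersetCard τ :=
    ⟨_, rfl⟩
  have h1 : ∀ S : Set (El q D u), ind (Sat φ τ S) ≤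
      ∑ p ∈ P, ind (∀ j ∈ p.2, ((j, p.1 ∘ φ j) : El q D u) ∈ S) := by
    intro S
    refine le_trans (ind_mono ?_) (ind_exists_le P
      fun p => ∀ j ∈ p.2, ((j, p.1 ∘ φ j) : El q D u) ∈ S)
    rintro ⟨w, J, hJ, hw⟩
    refine ⟨(w, J), ?_, hw⟩
    rw [hP, mem_product, mem_powersetCard]
    exact ⟨mem_univ _, subset_univ _, hJ⟩
  refine (T_iter_mono' h1 N ∅).trans ?_
  rw [T_iter_sum P (fun p S => ind (∀ j ∈ p.2, ((j, p.1 ∘ φ j) : El q D u) ∈ S)) N]
  have h2 : ∀ p ∈ P, (T Q)^[N] (fun S => ind (∀ j ∈ p.2, ((j, p.1 ∘ φ j) : El q D u) ∈ S)) ∅ ≤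
      ((N : ℝ) / Q) ^ τ := by
    intro p hp
    rw [hP, mem_product, mem_powersetCard] at hp
    let a : Finset (El q D u) := p.2.image fun j => (j, p.1 ∘ φ j)
    have ha : ∀ S : Set (El q D u), (a : Set (El q D u)) ⊆ S ↔
        ∀ j ∈ p.2, ((j, p.1 ∘ φ j) : El q D u) ∈ S := by
      intro S
      constructor
      · intro h j hj
        exact h (mem_coe.2 (mem_image.2 ⟨j, hj, rfl⟩))
      · intro h x hx
        obtain ⟨j, hj, rfl⟩ := mem_image.1 (mem_coe.1 hx)
        exact h j hj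
    have hc : a.card = τ := by
      rw [Finset.card_image_of_injective _ (fun j j' h => (Prod.ext_iff.1 h).1)]
      exact hp.2.2
    have h3 := T_iter_contain hQ a N
    rw [hc] at h3
    simp only [ha] at h3
    exact h3
  refine (Finset.sum_le_sum h2).trans ?_
  rw [Finset.sum_const, nsmul_eq_mul]
  apply mul_le_mul_of_nonneg_right _ (by positivity)
  have h4 : P.card ≤ u ^ q * 2 ^ (q + 1) := by
    rw [hP, card_product]
    apply Nat.mul_le_mul
    · simp
    · rw [card_powersetCard, card_univ, Fintype.card_fin]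
      exact Nat.choose_le_two_pow _ _
  exact_mod_cast h4

end FewGates
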