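import Pool.Agent.Lib.MP_678664_lc_FG.Rand
import Pool.Agent.Lib.MP_678664_lc_FG.Gap
import Pool.Agent.Lib.MP_678664_lc_FN.Main

/-! Choice of the parameters and the main theorem. -/

open Finset Filter FewNeg

namespace FewGates

/-- Few random layers satisfy few positions. -/
theorem sat_small {q D u A τ : ℕ} (hD : 4 + A ≤ D) (hu : 2 ≤ u) (hτ : 2 * (q + 1) ≤ A * τ)
    (φ : Fin (q + 1) → Fin D → Fin q) {i : ℕ} (hi : i < u ^ (D - 4 - A)) :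
    (T (u ^ (D - 3)))^[i * u] (fun S : Set (El q D u) => ind (Sat φ τ S)) ∅ ≤ 1 / (u : ℝ) := by
  have hu0 : 0 < u := by omega
  refine (sat_bound (Nat.pow_pos hu0) φ τ _).trans ?_
  have hu' : (2 : ℝ) ≤ u := by exact_mod_cast hu
  have hu1 : (0 : ℝ) < u := by linarith
  have h1 : (((i * u : ℕ) : ℝ) / ((u ^ (D - 3) : ℕ) : ℝ)) ≤ 1 / (u : ℝ) ^ A := by
    rw [div_le_div_iff₀ (by positivity) (by positivity), one_mul]
    have h2 : i * u * u ^ A ≤ u ^ (D - 3) := by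
      calc i * u * u ^ A = i * u ^ (A + 1) := by ring
        _ ≤ u ^ (D - 4 - A) * u ^ (A + 1) := Nat.mul_le_mul_right _ hi.le
        _ = u ^ (D - 3) := by rw [← pow_add]; congr 1; omega
    exact_mod_cast h2
  calc (u : ℝ) ^ q * 2 ^ (q + 1) * (((i * u : ℕ) : ℝ) / ((u ^ (D - 3) : ℕ) : ℝ)) ^ τ
      ≤ (u : ℝ) ^ q * (u : ℝ) ^ (q + 1) * (1 / (u : ℝ) ^ A) ^ τ := by gcongr
    _ = (u : ℝ) ^ (2 * q + 1) / (u : ℝ) ^ (A * τ) := by
        rw [one_div_pow, ← pow_mul, ← pow_add, mul_one_div]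
        congr 2
        ring
    _ ≤ (u : ℝ) ^ (2 * q + 1) / (u : ℝ) ^ (2 * (q + 1)) := by
        apply div_le_div_of_nonneg_left (by positivity) (by positivity)
        exact pow_le_pow_right₀ (by linarith) hτ
    _ = 1 / (u : ℝ) := by
        rw [show 2 * (q + 1) = (2 * q + 1) + 1 by ring, pow_succ (u : ℝ) (2 * q + 1)]
        field_simp

/-- The lower bound for fixed parameters. -/
theorem core {n q d u e c s t m k' r A τ : ℕ} {δ : ℝ} (hd : 4 + A ≤ 2 * d)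
    (hn : 2 * (q + 1) * u ^ d + e ≤ n)
    (φ : Fin (q + 1) → Fin (2 * d) → Fin q) (hφ : Expands φ r) (hr : 2 * c ≤ r) (hc : 1 ≤ c)
    (hu : 8 * (1 + 2 * c) ≤ u) (hτ : 2 * (q + 1) ≤ A * τ) (hδ : 1 / (u : ℝ) ≤ δ)
    (hk' : q + 1 + τ + e ≤ k')
    (hC : HasRandomCircuit n s t m (2 * (q + 1) + e) k' δ) :
    δ * (u : ℝ) ^ (2 * d - 4 - A) ≤ (((m : ℝ) + 1) * 2 ^ t) *
      (1 + (u : ℝ) ^ (2 * d - 4 - A) * (s * err ((q + 1) * u ^ (2 * d)) u c u)) := by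
  classical
  obtain ⟨M₀, p, C, o, hp, hp1, hCo, hyes, hno⟩ := hC
  have hu0 : 0 < u := by omega
  obtain ⟨Γ, hlit, hmono, hcl, hgap⟩ := graph_gap hu0 hn φ
  have hne : Nonempty (Fin q → Fin u) := ⟨fun _ => ⟨0, hu0⟩⟩
  have hY := M.spread_mono (spread_Yw hu0 (show 3 ≤ 2 * d by omega) φ hφ) hr
  have key := rand_bound (Q := u ^ (2 * d - 3)) (R := u) (c := c) (ρ := u)
    (Nat.pow_pos hu0) hu0 hc hu hY hlit hmono hp hp1 (C := C) (o := o) (s := s)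
    (m := u ^ (2 * d - 4 - A)) (fun j => (hCo j).1) (W := ((m : ℝ) + 1) * 2 ^ t) (δ := δ)
    (by
      intro j
      push_cast
      have h1 : ((C j).numWires s : ℝ) ≤ m := by exact_mod_cast (hCo j).2.2
      have h2 : ((2 : ℝ) ^ (C j).numOther s) ≤ 2 ^ t :=
        pow_le_pow_right₀ (by norm_num) (hCo j).2.1
      have h3 : (0 : ℝ) ≤ ((C j).numWires s : ℝ) := Nat.cast_nonneg _
      gcongr)
    (Bad := Sat φ τ)
    (fun S w hS => hyes (Γ S) (hcl S w hS))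
    (fun S hS => hno (Γ S) ((hgap S τ hS).mono hk'))
    (fun i hi => (sat_small (by omega) (by omega) hτ φ hi).trans hδ)
  rw [M.card_El] at key
  push_cast at key ⊢
  exact key

/-- The number of layers is larger than the number of monotone functions. -/
theorem m_large {ε : ℝ} {d A : ℕ} (hd : 0 < d) (hdA : 4 + A ≤ 2 * d)
    (hdε : (A : ℝ) + 5 ≤ ε * d) (hε : 0 < ε) (C : ℕ) :
    ∀ᶠ n : ℕ in atTop, ∀ u : ℕ, 0 < u → n ≤ C * u ^ d →
      2 * (n : ℝ) ^ (2 - ε) < ε * (u : ℝ) ^ (2 * d - 4 - A) := by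
  have hd0 : (0 : ℝ) < d := by exact_mod_cast hd
  have hδ : 0 < ε - (4 + A) / d := by
    rw [sub_pos, div_lt_iff₀ hd0]
    linarith
  have htend : Tendsto (fun n : ℕ => (n : ℝ) ^ (ε - (4 + A) / d)) atTop atTop :=
    (tendsto_rpow_atTop hδ).comp tendsto_natCast_atTop_atTop
  filter_upwards [htend.eventually_gt_atTop (2 / ε * (C : ℝ) ^ (2 - (4 + A) / (d : ℝ))),
    eventually_ge_atTop 1] with n hn hn1 u hu hnu
  have hn' : (0 : ℝ) < n := by exact_mod_cast hn1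
  have hC : 0 < C := by
    rcases Nat.eq_zero_or_pos C with h | h
    · subst h
      simp at hnu
      omega
    · exact h
  have hC' : (0 : ℝ) < C := by exact_mod_cast hC
  have hu' : (0 : ℝ) < u := by exact_mod_cast hu
  have hnu' : (n : ℝ) ≤ C * (u : ℝ) ^ d := by exact_mod_cast hnu
  have hexp : (0 : ℝ) ≤ 2 - (4 + A) / (d : ℝ) := by
    rw [sub_nonneg, div_le_iff₀ hd0]
    exact_mod_cast hdA
  have e1 : ((u : ℝ) ^ d) ^ (2 - (4 + A) / (d : ℝ)) = (u : ℝ) ^ (2 * d - 4 - A) := by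
    rw [← Real.rpow_natCast (u : ℝ) d, ← Real.rpow_mul hu'.le, ← Real.rpow_natCast]
    congr 1
    rw [Nat.sub_sub, Nat.cast_sub (by omega)]
    push_cast
    field_simp
  have e2 : (n : ℝ) ^ (2 - (4 + A) / (d : ℝ)) ≤
      (C : ℝ) ^ (2 - (4 + A) / (d : ℝ)) * (u : ℝ) ^ (2 * d - 4 - A) := by
    calc (n : ℝ) ^ (2 - (4 + A) / (d : ℝ)) ≤ (C * (u : ℝ) ^ d) ^ (2 - (4 + A) / (d : ℝ)) :=
          Real.rpow_le_rpow hn'.le hnu' hexp
      _ = _ := by rw [Real.mul_rpow hC'.le (by positivity), e1]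
  have e3 : (n : ℝ) ^ (ε - (4 + A) / (d : ℝ)) * (n : ℝ) ^ (2 - ε) =
      (n : ℝ) ^ (2 - (4 + A) / (d : ℝ)) := by
    rw [← Real.rpow_add hn']
    congr 1
    ring
  have hCp : (0 : ℝ) < (C : ℝ) ^ (2 - (4 + A) / (d : ℝ)) := Real.rpow_pos_of_pos hC' _
  have hnp : (0 : ℝ) < (n : ℝ) ^ (2 - ε) := Real.rpow_pos_of_pos hn' _
  have e4 := mul_lt_mul_of_pos_right hn hnp
  rw [e3] at e4
  have e5 := e4.trans_le e2
  have e6 : (C : ℝ) ^ (2 - (4 + A) / (d : ℝ)) * (2 * (n : ℝ) ^ (2 - ε)) <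
      (C : ℝ) ^ (2 - (4 + A) / (d : ℝ)) * (ε * (u : ℝ) ^ (2 * d - 4 - A)) := by
    have e7 := mul_lt_mul_of_pos_left e5 hε
    calc _ = ε * (2 / ε * (C : ℝ) ^ (2 - (4 + A) / (d : ℝ)) * (n : ℝ) ^ (2 - ε)) := by
          field_simp
      _ < _ := e7
      _ = _ := by ring
  exact lt_of_mul_lt_mul_left e6 hCp.le

theorem main : ∀ ε : ℝ, 0 < ε → ∃ c : ℝ, 0 < c ∧ ∃ k₀ : ℕ, ∀ k ≥ k₀, ∃ n₀ : ℕ, ∀ n ≥ n₀,
    ∀ s t m k' : ℕ, ((m : ℝ) + 1) * 2 ^ t ≤ (n : ℝ) ^ (2 - ε) → (1 / 2 + ε) * k ≤ k' →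
      HasRandomCircuit n s t m k k' ε → (n : ℝ) ^ (c * k) ≤ s := by
  intro ε hε
  obtain ⟨A, hA2, hAε⟩ : ∃ A : ℕ, 2 ≤ A ∧ 2 / ε ≤ A :=
    ⟨⌈2 / ε⌉₊ + 2, by omega, (Nat.le_ceil _).trans (by push_cast; linarith)⟩
  obtain ⟨d, hdA, hdε⟩ : ∃ d : ℕ, A + 3 ≤ d ∧ (A : ℝ) + 5 ≤ ε * d := by
    refine ⟨⌈(A + 5) / ε⌉₊ + A + 3, by omega, ?_⟩
    have h1 : ((A : ℝ) + 5) / ε ≤ ⌈((A : ℝ) + 5) / ε⌉₊ := Nat.le_ceil _
    rw [div_le_iff₀ hε] at h1
    push_cast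
    have h2 : (0 : ℝ) ≤ ε * (A + 3) := by positivity
    nlinarith
  obtain ⟨K, hK, hexp⟩ := exists_expander (2 * d) (by omega)
  have hK' : (0 : ℝ) < K := by exact_mod_cast hK
  refine ⟨1 / (8 * (K : ℝ) * (d + 1)), by positivity,
    8 * K * (2 * d + 2) + ⌈3 / ε⌉₊, fun k hk => ?_⟩
  -- parameters depending on `k`
  obtain ⟨q, hq⟩ : ∃ q, q = k / 2 - 1 := ⟨_, rfl⟩
  obtain ⟨e, he⟩ : ∃ e, e = k - 2 * (q + 1) := ⟨_, rfl⟩
  obtain ⟨c, hc⟩ : ∃ c, c = q / K / 2 := ⟨_, rfl⟩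
  obtain ⟨τ, hτ⟩ : ∃ τ, τ = ⌈ε * ((q : ℝ) + 1)⌉₊ := ⟨_, rfl⟩
  have hk1 : 8 * K * (2 * d + 2) ≤ k := by omega
  have hk0 : 96 ≤ 8 * K * (2 * d + 2) := by
    calc 96 = 8 * 1 * (2 * 5 + 2) := by norm_num
      _ ≤ 8 * K * (2 * d + 2) := by
          have : 5 ≤ d := by omega
          gcongr
          exact hK
  have hq0 : 0 < q := by omega
  have hke : 2 * (q + 1) + e = k := by omega
  have he1 : e ≤ 1 := by omega
  have hc1 : q < 2 * K * (c + 1) := by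
    have h1 : q / K < 2 * (c + 1) := by omega
    have h2 := (Nat.div_lt_iff_lt_mul hK).1 h1
    calc q < 2 * (c + 1) * K := h2
      _ = _ := by ring
  have hc2 : 4 * d + 3 ≤ c := by
    by_contra hcon
    have h3 : c + 1 ≤ 4 * d + 3 := by omega
    have h4 : 2 * K * (c + 1) ≤ 2 * K * (4 * d + 3) := Nat.mul_le_mul_left _ h3
    have h5 : 8 * K * (2 * d + 2) = 2 * (2 * K * (4 * d + 3)) + 4 * K := by ring
    omega
  have hkc : k ≤ 8 * K * (c - 2 * d) := by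
    obtain ⟨c', hc'⟩ : ∃ c', c = 2 * d + c' := ⟨c - 2 * d, by omega⟩
    have h6 : c - 2 * d = c' := by omega
    rw [h6]
    have h7 : c + 1 + 2 ≤ 2 * c' := by omega
    have h8 : 2 * K * (c + 1) + 4 * K ≤ 4 * K * c' := by
      calc 2 * K * (c + 1) + 4 * K = 2 * K * (c + 1 + 2) := by ring
        _ ≤ 2 * K * (2 * c') := Nat.mul_le_mul_left _ h7
        _ = _ := by ring
    have h9 : 8 * K * c' = 2 * (4 * K * c') := by ring
    omega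
  have hqr : (0 : ℝ) < (q : ℝ) + 1 := by positivity
  have hτA : 2 * (q + 1) ≤ A * τ := by
    have h1 : ε * ((q : ℝ) + 1) ≤ τ := by rw [hτ]; exact Nat.le_ceil _
    have h2 : (2 : ℝ) ≤ A * ε := by rw [div_le_iff₀ hε] at hAε; exact hAε
    have h3 : (2 : ℝ) * ((q : ℝ) + 1) ≤ A * τ := by
      calc (2 : ℝ) * ((q : ℝ) + 1) ≤ (A * ε) * ((q : ℝ) + 1) :=
            mul_le_mul_of_nonneg_right h2 hqr.le
        _ = A * (ε * ((q : ℝ) + 1)) := by ring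
        _ ≤ A * τ := mul_le_mul_of_nonneg_left h1 (Nat.cast_nonneg _)
    exact_mod_cast h3
  have hgapk : ∀ k' : ℕ, (1 / 2 + ε) * (k : ℝ) ≤ k' → q + 1 + τ + e ≤ k' := by
    intro k' hk'
    have h1 : (τ : ℝ) < ε * ((q : ℝ) + 1) + 1 := by
      rw [hτ]; exact Nat.ceil_lt_add_one (by positivity)
    have h2 : (k : ℝ) = 2 * ((q : ℝ) + 1) + e := by rw [← hke]; push_cast; ring
    have h3 : (3 : ℝ) / ε ≤ k := by
      refine (Nat.le_ceil _).trans ?_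
      have : ⌈3 / ε⌉₊ ≤ k := by omega
      exact_mod_cast this
    rw [div_le_iff₀ hε, h2] at h3
    have h4 : (e : ℝ) ≤ 1 := by exact_mod_cast he1
    have h5 : (0 : ℝ) ≤ e := Nat.cast_nonneg _
    rw [h2] at hk'
    have h6 : ((q + 1 + τ + e : ℕ) : ℝ) ≤ k' := by
      push_cast
      nlinarith
    exact_mod_cast h6
  obtain ⟨φ, hφ⟩ := hexp q hq0
  -- a lower bound for `u`
  obtain ⟨u₁, hu₁⟩ := eventually_atTop.1 (M.err_small q (2 * d) c (by omega) (by omega))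
  obtain ⟨C, hC⟩ : ∃ C, C = 2 * (q + 1) * 2 ^ d + e := ⟨_, rfl⟩
  obtain ⟨n₁, hn₁⟩ := eventually_atTop.1 (m_large (by omega) (by omega) hdε hε C)
  obtain ⟨u₀, hu₀⟩ : ∃ u₀, u₀ = u₁ + C + 8 * (1 + 2 * c) + ⌈1 / ε⌉₊ := ⟨_, rfl⟩
  refine ⟨n₁ + (2 * (q + 1) * u₀ ^ d + e) + 1, fun n hn s t m k' ht hk' hcirc => ?_⟩
  obtain ⟨u, huu, hnu, hnC⟩ := M.exists_u (a := 2 * (q + 1)) (d := d) (e := e) (u₀ := u₀) (n := n)
    (by omega) (by omega) (by omega) (by omega)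
  rw [← hC] at hnC
  have hu1 : 1 ≤ u := by omega
  have hu1r : (1 : ℝ) ≤ u := by exact_mod_cast hu1
  have huε : 1 / (u : ℝ) ≤ ε := by
    have h1 : 1 / ε ≤ u := by
      refine (Nat.le_ceil _).trans ?_
      have : ⌈1 / ε⌉₊ ≤ u := by omega
      exact_mod_cast this
    rw [div_le_iff₀ hε] at h1
    rw [div_le_iff₀ (by linarith)]
    linarith
  have hfin : (n : ℝ) ^ (1 / (8 * (K : ℝ) * (d + 1)) * k) ≤ (u : ℝ) ^ (c - 2 * d) :=
    M.final_exp hK hkc (by omega) hu1 (by omega) hnC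
  refine hfin.trans ?_
  by_contra hs
  have hs' : (s : ℝ) < (u : ℝ) ^ (c - 2 * d) := not_le.1 hs
  rw [← hke] at hcirc
  have hb := core (A := A) (τ := τ) (c := c) (k' := k') (δ := ε) (by omega) hnu φ hφ (by omega)
    (by omega) (by omega) hτA huε (hgapk k' hk') hcirc
  have herr := hu₁ u (by omega)
  have herr0 : 0 ≤ err ((q + 1) * u ^ (2 * d)) u c u := err_nonneg _ _ _ _
  have h10 : (u : ℝ) ^ (2 * d - 4 - A) * (s * err ((q + 1) * u ^ (2 * d)) u c u) ≤ 1 := by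
    refine le_trans ?_ herr
    have h1 : (u : ℝ) ^ (2 * d - 4 - A) ≤ (u : ℝ) ^ (2 * d - 6) :=
      pow_le_pow_right₀ hu1r (by omega)
    gcongr
  have h12 := hn₁ n (by omega) u (by omega) hnC
  have h13 : (0 : ℝ) ≤ ((m : ℝ) + 1) * 2 ^ t := by positivity
  nlinarith

end FewGates
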