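import Pool.Agent.Lib.MP_678664_lc_FG.Approx

/-! The lower bound for randomized circuits in abstract form. -/

open Finset FewNeg

namespace FewGates

theorem prob_eq {M : ℕ} (p : Fin M → ℝ) (A : Fin M → Prop) :
    Prob p A = ∑ j, p j * ind (A j) := by
  classical
  unfold Prob
  apply sum_congr rfl
  intro j _
  by_cases h : A j
  · rw [if_pos h, ind_true h, mul_one]
  · rw [if_neg h, ind_false h, mul_zero]

theorem prob_le_one {M : ℕ} {p : Fin M → ℝ} (hp : ∀ j, 0 ≤ p j) (hp1 : ∑ j, p j = 1)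
    (A : Fin M → Prop) : Prob p A ≤ 1 := by
  rw [prob_eq, ← hp1]
  apply sum_le_sum
  intro j _
  exact mul_le_of_le_one_right (hp j) (ind_le_one _)

theorem prob_not {M : ℕ} {p : Fin M → ℝ} (hp1 : ∑ j, p j = 1) (A : Fin M → Prop) :
    ∑ j, p j * ind (¬ A j) = 1 - Prob p A := by
  rw [prob_eq, ← hp1, ← sum_sub_distrib]
  apply sum_congr rfl
  intro j _
  rw [ind_not]
  ring

variable {E Z : Type} [Fintype E] [DecidableEq E] [Fintype Z] [Nonempty Z]

theorem rand_bound {ι : Type}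
    {Q R c ρ : ℕ} (hQ : 0 < Q) (hR : 0 < R) (hc : 1 ≤ c) (hρ : 8 * (1 + 2 * c) ≤ ρ)
    {Y : Z → Set E} (hY : Spread Y (Q * ρ) (2 * c))
    {a : Set E → ι → Prop} (ha : IsLit a) (hamono : ∀ S S' : Set E, S ⊆ S' → ∀ v, a S v → a S' v)
    {M : ℕ} {p : Fin M → ℝ} (hp : ∀ j, 0 ≤ p j) (hp1 : ∑ j, p j = 1)
    {C : Fin M → Circuit ι} {o : Fin M → ℕ} {s m : ℕ} (ho : ∀ j, o j < s) {W δ : ℝ}
    (hW : ∀ j, ((((C j).numWires s + 1) * 2 ^ (C j).numOther s : ℕ) : ℝ) ≤ W)
    {Bad : Set E → Prop}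
    (h1 : ∀ S z, Y z ⊆ S → 1 / 2 + δ ≤ Prob p fun j => (C j).val (a S) (o j))
    (h0 : ∀ S, ¬ Bad S → Prob p (fun j => (C j).val (a S) (o j)) ≤ 1 / 2 - δ)
    (hbad : ∀ i < m, (T Q)^[i * R] (fun S => ind (Bad S)) ∅ ≤ δ) :
    δ * m ≤ W * (1 + m * (s * err (Fintype.card E) R c ρ)) := by
  classical
  obtain ⟨e, he⟩ : ∃ e, e = s * err (Fintype.card E) R c ρ := ⟨_, rfl⟩
  rw [← he]
  have he0 : 0 ≤ e := by
    rw [he]; exact mul_nonneg (Nat.cast_nonneg _) (err_nonneg _ _ _ _)
  obtain ⟨z0⟩ := ‹Nonempty Z›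
  have : Nonempty Z := ⟨z0⟩
  have hδ : δ ≤ 1 / 2 := by
    have h2 := h1 Set.univ z0 (Set.subset_univ _)
    have h3 := prob_le_one hp hp1 fun j => (C j).val (a Set.univ) (o j)
    linarith
  obtain ⟨B, hB⟩ : ∃ B : Fin M → Set E → ℝ, B = fun j S => ind ((C j).val (a S) (o j)) +
        avg (fun z => ind (¬ (C j).val (a (S ∪ Y z)) (o j))) := ⟨_, rfl⟩
  have hchain : ∀ j, (m : ℝ) ≤ (∑ i ∈ range m, (T Q)^[i * R] (B j) ∅) + W * (1 + m * e) := by
    intro j
    have h2 := chain_bound (R := R) hQ he0 hamono (C j) (ho j) m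
      (fun β i hi G => by
        rw [he]; exact mono_bound hQ hR hc hρ hY ha (C j) β hi G)
    have h3 : ((((C j).numWires s + 1) * 2 ^ (C j).numOther s : ℕ) : ℝ) * (1 + m * e) ≤
        W * (1 + m * e) := mul_le_mul_of_nonneg_right (hW j) (by positivity)
    rw [hB]
    linarith
  -- average over the circuits
  have hpt : ∀ S : Set E, (∑ j, p j * B j S) ≤ (1 - 2 * δ) + ind (Bad S) := by
    intro S
    have h2 : (∑ j, p j * B j S) = Prob p (fun j => (C j).val (a S) (o j)) +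
        avg (fun z => 1 - Prob p (fun j => (C j).val (a (S ∪ Y z)) (o j))) := by
      have h3 : ∀ z, 1 - Prob p (fun j => (C j).val (a (S ∪ Y z)) (o j)) =
          ∑ j, p j * ind (¬ (C j).val (a (S ∪ Y z)) (o j)) := fun z => (prob_not hp1 _).symm
      simp only [h3]
      rw [avg_sum univ (fun j z => p j * ind (¬ (C j).val (a (S ∪ Y z)) (o j))), prob_eq,
        ← sum_add_distrib]
      apply sum_congr rfl
      intro j _
      rw [avg_mul_left, hB]
      ring
    have h4 : Prob p (fun j => (C j).val (a S) (o j)) ≤ 1 / 2 - δ + ind (Bad S) := by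
      by_cases hb : Bad S
      · rw [ind_true hb]
        have := prob_le_one hp hp1 fun j => (C j).val (a S) (o j)
        linarith
      · rw [ind_false hb, add_zero]
        exact h0 S hb
    have h5 : avg (fun z => 1 - Prob p (fun j => (C j).val (a (S ∪ Y z)) (o j))) ≤ 1 / 2 - δ := by
      calc avg (fun z => 1 - Prob p (fun j => (C j).val (a (S ∪ Y z)) (o j)))
          ≤ avg (fun _ : Z => 1 / 2 - δ) := by
            apply avg_mono
            intro z
            have := h1 (S ∪ Y z) z Set.subset_union_right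
            linarith
        _ = 1 / 2 - δ := avg_const _
    rw [h2]
    linarith
  have hstep : ∀ i < m, ∑ j, p j * (T Q)^[i * R] (B j) ∅ ≤ 1 - δ := by
    intro i hi
    have h2 : ∑ j, p j * (T Q)^[i * R] (B j) ∅ = (T Q)^[i * R] (fun S => ∑ j, p j * B j S) ∅ := by
      rw [T_iter_sum univ (fun j S => p j * B j S)]
      apply sum_congr rfl
      intro j _
      rw [T_iter_mul_left (p j) (B j)]
    rw [h2]
    refine (T_iter_mono' hpt (i * R) ∅).trans ?_
    rw [T_iter_add (fun _ => 1 - 2 * δ) (fun S => ind (Bad S)), T_iter_const hQ]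
    have := hbad i hi
    simp only
    linarith
  have hsum : (m : ℝ) ≤ m * (1 - δ) + W * (1 + m * e) := by
    calc (m : ℝ) = ∑ j, p j * (m : ℝ) := by rw [← sum_mul, hp1, one_mul]
      _ ≤ ∑ j, p j * ((∑ i ∈ range m, (T Q)^[i * R] (B j) ∅) + W * (1 + m * e)) :=
          sum_le_sum fun j _ => mul_le_mul_of_nonneg_left (hchain j) (hp j)
      _ = (∑ i ∈ range m, ∑ j, p j * (T Q)^[i * R] (B j) ∅) + W * (1 + m * e) := by
          obtain ⟨X, hX⟩ : ∃ X, X = W * (1 + m * e) := ⟨_, rfl⟩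
          rw [← hX]
          simp only [mul_add, sum_add_distrib, mul_sum]
          rw [sum_comm, ← sum_mul, hp1, one_mul]
      _ ≤ (∑ i ∈ range m, (1 - δ)) + W * (1 + m * e) := by
          have := sum_le_sum fun i hi => hstep i (mem_range.1 hi)
          linarith
      _ = _ := by rw [sum_const, card_range, nsmul_eq_mul]
  linarith

end FewGates
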